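import Mathlib

/-!
# Moebius images as sets of multiplicative recurrence

For `b ≠ d` the set `{(a n + b) / (a n + d) : n ≥ 1}` is a set of topological multiplicative
recurrence if and only if `a = a₁ a₂` with coprime `a₁ ∣ b` and `a₂ ∣ d`. In particular
`{(6 n + 3) / (6 n + 2)}` is such a set although `6` divides neither `3` nor `2`.
-/

set_option autoImplicit false

namespace Pool.Agent.Results.MP_369d67_an.MoebiusRecurrence

/-- the multiplicative group of the positive rationals -/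
abbrev QPos : Type := {q : ℚ // 0 < q}

/-- `R` is a set of topological multiplicative recurrence: for every compact metric space `X` with
continuous maps `T r`, `r ∈ ℚ_{>0}`, `T (r s) = T r ∘ T s`, all of whose orbits are dense, and every
nonempty open `U ⊆ X` there is `r ∈ R` with `U ∩ (T r)⁻¹ U ≠ ∅`. -/
def IsMultRecurrent (R : Set QPos) : Prop :=
  ∀ (X : Type) [MetricSpace X] [CompactSpace X] (T : QPos → X → X),
    (∀ r, Continuous (T r)) → (∀ r s x, T (r * s) x = T r (T s x)) →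
    (∀ x, Dense (Set.range fun r => T r x)) →
    ∀ U : Set X, IsOpen U → U.Nonempty → ∃ r ∈ R, (U ∩ T r ⁻¹' U).Nonempty

/-- `S_{a,b,d}`: the quotients `(a n + b) / (a n + d)`, `n ≥ 1`, with positive numerator and
denominator -/
def S (a : ℕ) (b d : ℤ) : Set QPos :=
  {r | ∃ n : ℕ, 1 ≤ n ∧ 0 < (a : ℤ) * n + b ∧ 0 < (a : ℤ) * n + d ∧
    (r : ℚ) = (((a : ℤ) * n + b : ℤ) : ℚ) / (((a : ℤ) * n + d : ℤ) : ℚ)}

/-! ### Chains -/

lemma exists_coprime_part (a : ℕ) : ∀ L : ℕ, 0 < L →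
    ∃ L₁ K : ℕ, 0 < L₁ ∧ Nat.Coprime L₁ a ∧ L ∣ L₁ * a ^ K := by
  intro L
  induction L using Nat.strong_induction_on with
  | _ L ih =>
    intro hL
    by_cases hc : Nat.Coprime L a
    · exact ⟨L, 0, hL, hc, by simp⟩
    · have hg : 1 < Nat.gcd L a := by
        have h0 : Nat.gcd L a ≠ 0 := Nat.gcd_ne_zero_left hL.ne'
        have h1 : Nat.gcd L a ≠ 1 := hc
        omega
      obtain ⟨L', hL'⟩ := Nat.gcd_dvd_left L a
      have hL'pos : 0 < L' := by
        rcases Nat.eq_zero_or_pos L' with h | h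
        · rw [h, mul_zero] at hL'
          omega
        · exact h
      have hlt : L' < L := by
        calc L' = 1 * L' := (one_mul _).symm
          _ < Nat.gcd L a * L' := Nat.mul_lt_mul_of_pos_right hg hL'pos
          _ = L := hL'.symm
      obtain ⟨L₁, K, h1, h2, h3⟩ := ih L' hlt hL'pos
      refine ⟨L₁, K + 1, h1, h2, ?_⟩
      have h4 : L ∣ a * (L₁ * a ^ K) := by
        conv_lhs => rw [hL']
        exact Nat.mul_dvd_mul (Nat.gcd_dvd_right L a) h3
      have h5 : a * (L₁ * a ^ K) = L₁ * a ^ (K + 1) := by ring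
      rwa [h5] at h4

lemma crt_large (A B e : ℕ) (hA : 0 < A) (hB : 0 < B) (h : Nat.gcd A B ∣ e) (C : ℕ) :
    ∃ N : ℕ, C ≤ N ∧ A ∣ N ∧ B ∣ N + e := by
  have h1 : (Nat.gcd A B : ℤ) ∣ (e : ℤ) := by exact_mod_cast h
  obtain ⟨q, hq⟩ := h1
  have hbez := Nat.gcd_eq_gcd_ab A B
  set x : ℤ := Nat.gcdA A B * q
  set y : ℤ := Nat.gcdB A B * q
  have he : (e : ℤ) = A * x + B * y := by
    rw [hq, hbez]
    ring
  set k : ℤ := |x| + C
  have hN0 : (C : ℤ) ≤ -(A * x) + A * B * k := by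
    have hA1 : (1 : ℤ) ≤ A := by exact_mod_cast hA
    have hB1 : (1 : ℤ) ≤ B := by exact_mod_cast hB
    have hk : (0 : ℤ) ≤ k := by positivity
    have h2 : (A : ℤ) * x ≤ A * |x| := mul_le_mul_of_nonneg_left (le_abs_self x) (by positivity)
    have h3 : (A : ℤ) * k ≤ A * B * k := by nlinarith [mul_nonneg (mul_nonneg (by positivity : (0 : ℤ) ≤ A) (by linarith : (0:ℤ) ≤ (B : ℤ) - 1)) hk]
    have h4 : (A : ℤ) * k = A * |x| + A * C := by simp only [k]; ring
    have h5 : (C : ℤ) ≤ A * C := by nlinarith [(by positivity : (0 : ℤ) ≤ (C : ℤ))]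
    linarith
  refine ⟨(-(A * x) + A * B * k).toNat, ?_, ?_, ?_⟩
  · omega
  · have h6 : (A : ℤ) ∣ ((-(A * x) + A * B * k).toNat : ℤ) := by
      rw [Int.toNat_of_nonneg (by linarith [(by positivity : (0 : ℤ) ≤ (C : ℤ))])]
      exact ⟨-x + B * k, by ring⟩
    exact_mod_cast h6
  · have h6 : (B : ℤ) ∣ (((-(A * x) + A * B * k).toNat + e : ℕ) : ℤ) := by
      push_cast
      rw [Int.toNat_of_nonneg (by linarith [(by positivity : (0 : ℤ) ≤ (C : ℤ))]), he]
      exact ⟨y + A * k, by ring⟩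
    exact_mod_cast h6

/-- the property of a pair `u < v` in a chain -/
def Link (a₁ a₂ H u v : ℕ) : Prop := H * (v - u) ≤ u ∧ a₂ * (v - u) ∣ u ∧ a₁ * (v - u) ∣ v

lemma exists_chain (a₁ a₂ H : ℕ) (h1 : 0 < a₁) (h2 : 0 < a₂) (hH : 0 < H)
    (hco : Nat.Coprime a₁ a₂) :
    ∀ r : ℕ, ∃ s : Finset ℕ, s.card = r ∧ (∀ u ∈ s, 0 < u) ∧
      ∀ u ∈ s, ∀ v ∈ s, u < v → Link a₁ a₂ H u v := by
  intro r
  induction r with
  | zero => exact ⟨∅, rfl, by simp, by simp⟩
  | succ r ih =>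
    obtain ⟨s, hs, -, hlink⟩ := ih
    set L : ℕ := ∏ u ∈ s, ∏ v ∈ s, (if u < v then a₁ * a₂ * (v - u) else 1) with hL
    have hLpos : 0 < L := by
      refine Finset.prod_pos fun u _ => Finset.prod_pos fun v _ => ?_
      split_ifs with h
      · have : 0 < v - u := by omega
        positivity
      · exact one_pos
    have hLdvd : ∀ u ∈ s, ∀ v ∈ s, u < v → a₁ * a₂ * (v - u) ∣ L := by
      intro u hu v hv huv
      have e1 : (if u < v then a₁ * a₂ * (v - u) else 1) = a₁ * a₂ * (v - u) := if_pos huv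
      rw [← e1]
      exact (Finset.dvd_prod_of_mem (fun v => if u < v then a₁ * a₂ * (v - u) else 1) hv).trans
        (Finset.dvd_prod_of_mem (fun u => ∏ v ∈ s, (if u < v then a₁ * a₂ * (v - u) else 1)) hu)
    obtain ⟨L₁, K, hL₁, hL₁c, hL₁d⟩ := exists_coprime_part a₂ L hLpos
    set e : ℕ := L₁ * (1 + a₂ * ∑ u ∈ s, u) with he
    have hec : Nat.Coprime e a₂ := by
      refine Nat.Coprime.mul_left hL₁c ?_
      rw [Nat.coprime_add_mul_left_left]
      exact Nat.coprime_one_left a₂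
    have hlt : ∀ u ∈ s, a₂ * u < e := by
      intro u hu
      have h3 : u ≤ ∑ u ∈ s, u := Finset.single_le_sum (f := fun u => u) (fun _ _ => Nat.zero_le _) hu
      have h4 : a₂ * u ≤ a₂ * ∑ u ∈ s, u := Nat.mul_le_mul_left _ h3
      have h5 : 1 + a₂ * ∑ u ∈ s, u ≤ e := Nat.le_mul_of_pos_left _ hL₁
      omega
    have hepos : 0 < e := by positivity
    have hDc : ∀ u ∈ s, Nat.Coprime (e - a₂ * u) a₂ := by
      intro u hu
      have h3 : (e - a₂ * u) + a₂ * u = e := Nat.sub_add_cancel (hlt u hu).le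
      have h4 : Nat.Coprime ((e - a₂ * u) + a₂ * u) a₂ := by rw [h3]; exact hec
      rwa [Nat.coprime_add_mul_left_left] at h4
    set D : ℕ := ∏ u ∈ s, (e - a₂ * u) with hD
    have hDpos : 0 < D := Finset.prod_pos fun u hu => by have := hlt u hu; omega
    have hDc' : Nat.Coprime D a₂ := Nat.Coprime.prod_left hDc
    have hgcd : Nat.gcd (a₂ * L) (a₁ * D) ∣ e := by
      have h3 : Nat.Coprime (Nat.gcd (a₂ * L) (a₁ * D)) a₂ := by
        have h4 : Nat.Coprime (a₁ * D) a₂ := Nat.Coprime.mul_left hco hDc'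
        exact Nat.Coprime.coprime_dvd_left (Nat.gcd_dvd_right _ _) h4
      have h4 : Nat.gcd (a₂ * L) (a₁ * D) ∣ a₂ ^ (K + 1) * L₁ := by
        refine (Nat.gcd_dvd_left _ _).trans ?_
        have : a₂ ^ (K + 1) * L₁ = a₂ * (L₁ * a₂ ^ K) := by ring
        rw [this]
        exact Nat.mul_dvd_mul_left _ hL₁d
      have h5 : Nat.gcd (a₂ * L) (a₁ * D) ∣ L₁ :=
        Nat.Coprime.dvd_of_dvd_mul_left (h3.pow_right (K + 1)) h4
      exact h5.trans (Dvd.intro _ rfl)
    obtain ⟨N, hNC, hN1, hN2⟩ := crt_large (a₂ * L) (a₁ * D) e (by positivity) (by positivity) hgcd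
      (H * e)
    have hdvdD : ∀ u ∈ s, e - a₂ * u ∣ D := fun u hu => Finset.dvd_prod_of_mem _ hu
    have hinj : Function.Injective (fun u : ℕ => N + a₂ * u) := by
      intro u v huv
      have : a₂ * u = a₂ * v := by simpa using huv
      exact Nat.eq_of_mul_eq_mul_left h2 this
    have hnotmem : N + e ∉ s.image (fun u => N + a₂ * u) := by
      intro h
      obtain ⟨u, hu, huv⟩ := Finset.mem_image.1 h
      have := hlt u hu
      omega
    have hN0 : 0 < N := lt_of_lt_of_le (by positivity) hNC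
    refine ⟨insert (N + e) (s.image (fun u => N + a₂ * u)), ?_, ?_, ?_⟩
    · rw [Finset.card_insert_of_notMem hnotmem, Finset.card_image_of_injective _ hinj, hs]
    · intro u' hu'
      rw [Finset.mem_insert] at hu'
      rcases hu' with rfl | hu'
      · omega
      · obtain ⟨u, hu, rfl⟩ := Finset.mem_image.1 hu'
        exact Nat.add_pos_left hN0 _
    · intro u' hu' v' hv' huv'
      rw [Finset.mem_insert] at hu' hv'
      rcases hu' with rfl | hu'
      · rcases hv' with rfl | hv'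
        · exact absurd huv' (lt_irrefl _)
        · obtain ⟨v, hv, rfl⟩ := Finset.mem_image.1 hv'
          have h3 := hlt v hv
          have h4 : N + e < N + a₂ * v := huv'
          omega
      · obtain ⟨u, hu, rfl⟩ := Finset.mem_image.1 hu'
        rcases hv' with rfl | hv'
        · -- the new largest element
          have hu3 := hlt u hu
          have e1 : N + e - (N + a₂ * u) = e - a₂ * u := by omega
          refine ⟨?_, ?_, ?_⟩
          · show H * (N + e - (N + a₂ * u)) ≤ N + a₂ * u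
            rw [e1]
            have : H * (e - a₂ * u) ≤ H * e := Nat.mul_le_mul_left _ (Nat.sub_le _ _)
            omega
          · show a₂ * (N + e - (N + a₂ * u)) ∣ N + a₂ * u
            rw [e1]
            refine Nat.Coprime.mul_dvd_of_dvd_of_dvd (hDc u hu).symm ?_ ?_
            · exact Nat.dvd_add ((Dvd.intro _ rfl).trans hN1) (Dvd.intro _ rfl)
            · have h3 : e - a₂ * u ∣ N + e := ((hdvdD u hu).trans (Dvd.intro_left _ rfl)).trans hN2
              have h4 : N + e = (N + a₂ * u) + (e - a₂ * u) := by omega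
              rw [h4] at h3
              exact (Nat.dvd_add_left (dvd_refl _)).1 h3
          · show a₁ * (N + e - (N + a₂ * u)) ∣ N + e
            rw [e1]
            exact (Nat.mul_dvd_mul_left _ (hdvdD u hu)).trans hN2
        · obtain ⟨v, hv, rfl⟩ := Finset.mem_image.1 hv'
          have huv : u < v := by
            have h4 : N + a₂ * u < N + a₂ * v := huv'
            have : a₂ * u < a₂ * v := by omega
            exact Nat.lt_of_mul_lt_mul_left this
          obtain ⟨l1, l2, l3⟩ := hlink u hu v hv huv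
          have e1 : N + a₂ * v - (N + a₂ * u) = a₂ * (v - u) := by
            rw [Nat.mul_sub]
            omega
          have hdL := hLdvd u hu v hv huv
          refine ⟨?_, ?_, ?_⟩
          · show H * (N + a₂ * v - (N + a₂ * u)) ≤ N + a₂ * u
            rw [e1]
            have h3 : a₂ * (v - u) ≤ e := by
              have := hlt v hv
              have : a₂ * (v - u) ≤ a₂ * v := Nat.mul_le_mul_left _ (Nat.sub_le _ _)
              omega
            have : H * (a₂ * (v - u)) ≤ H * e := Nat.mul_le_mul_left _ h3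
            omega
          · show a₂ * (N + a₂ * v - (N + a₂ * u)) ∣ N + a₂ * u
            rw [e1]
            refine Nat.dvd_add ?_ (Nat.mul_dvd_mul_left _ l2)
            refine dvd_trans (Nat.mul_dvd_mul_left _ ?_) hN1
            exact (Dvd.intro_left a₁ (by ring)).trans hdL
          · show a₁ * (N + a₂ * v - (N + a₂ * u)) ∣ N + a₂ * v
            rw [e1]
            have e2 : a₁ * (a₂ * (v - u)) = a₂ * (a₁ * (v - u)) := by ring
            refine Nat.dvd_add ?_ ?_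
            · refine dvd_trans ?_ hN1
              rw [← mul_assoc]
              exact hdL.trans (Dvd.intro_left _ rfl)
            · rw [e2]
              exact Nat.mul_dvd_mul_left _ l3

/-! ### From chains to recurrence -/

/-- a positive natural number as a positive rational -/
def q (u : ℕ) (hu : 0 < u) : QPos := ⟨(u : ℚ), by exact_mod_cast hu⟩

lemma isMultRecurrent_of_chain (R : Set QPos)
    (h : ∀ r : ℕ, ∃ s : Finset ℕ, s.card = r ∧ (∀ u ∈ s, 0 < u) ∧ ∀ u ∈ s, ∀ v ∈ s, u < v →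
      (∀ t : QPos, (t : ℚ) = v / u → t ∈ R) ∨ (∀ t : QPos, (t : ℚ) = u / v → t ∈ R)) :
    IsMultRecurrent R := by
  intro X _ _ T hcont hmul hdense U hU hUne
  -- finitely many preimages of `U` cover `X`
  have hcov : (Set.univ : Set X) ⊆ ⋃ r : QPos, T r ⁻¹' U := by
    intro x _
    obtain ⟨y, hyU, r, hr⟩ := (hdense x).inter_open_nonempty U hU hUne
    exact Set.mem_iUnion.2 ⟨r, by simpa [hr] using hyU⟩
  obtain ⟨t, ht⟩ := isCompact_univ.elim_finite_subcover (fun r : QPos => T r ⁻¹' U)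
    (fun r => hU.preimage (hcont r)) hcov
  obtain ⟨s, hs, hpos, hlink⟩ := h (t.card + 1)
  obtain ⟨x0, -⟩ := hUne
  have hex : ∀ u : {u // u ∈ s}, ∃ r ∈ t, T r (T (q u (hpos u u.2)) x0) ∈ U := by
    intro u
    have h1 := ht (Set.mem_univ (T (q u (hpos u u.2)) x0))
    simpa using h1
  choose r hrt hrU using hex
  have hcard : t.card < (Finset.univ : Finset {u // u ∈ s}).card := by
    rw [Finset.card_univ, Fintype.card_coe, hs]
    omega
  obtain ⟨u, -, v, -, huv, hruv⟩ := Finset.exists_ne_map_eq_of_card_lt_of_maps_to hcard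
    (fun u _ => hrt u)
  have key : ∀ u v : {u // u ∈ s}, r u = r v → (u : ℕ) < v →
      ∃ t ∈ R, (U ∩ T t ⁻¹' U).Nonempty := by
    intro u v hruv huv
    have hu := hpos u u.2
    have hv := hpos v v.2
    have hu' : ((u : ℕ) : ℚ) ≠ 0 := by exact_mod_cast hu.ne'
    have hv' : ((v : ℕ) : ℚ) ≠ 0 := by exact_mod_cast hv.ne'
    rcases hlink u u.2 v v.2 huv with h1 | h1
    · refine ⟨q v hv / q u hu, h1 _ rfl, T (r u) (T (q u hu) x0), hrU u, ?_⟩
      show T (q v hv / q u hu) (T (r u) (T (q u hu) x0)) ∈ U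
      rw [← hmul, ← hmul]
      have e : q v hv / q u hu * (r u * q u hu) = r v * q v hv := by
        rw [hruv, mul_comm (r v), ← mul_assoc, div_mul_cancel, mul_comm]
      rw [← mul_assoc] at e
      rw [e, hmul]
      exact hrU v
    · refine ⟨q u hu / q v hv, h1 _ rfl, T (r v) (T (q v hv) x0), hrU v, ?_⟩
      show T (q u hu / q v hv) (T (r v) (T (q v hv) x0)) ∈ U
      rw [← hmul, ← hmul]
      have e : q u hu / q v hv * (r v * q v hv) = r u * q u hu := by
        rw [hruv, mul_comm (r v), ← mul_assoc, div_mul_cancel, mul_comm]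
      rw [← mul_assoc] at e
      rw [e, hmul]
      exact hrU u
  have huv' : (u : ℕ) ≠ v := fun h => huv (Subtype.ext h)
  rcases lt_or_gt_of_ne huv' with h1 | h1
  · exact key u v hruv h1
  · exact key v u hruv.symm h1

/-- the quotient of a link lies in `S` -/
lemma link_mem (a₁ a₂ : ℕ) (h1 : 0 < a₁) (h2 : 0 < a₂) (hco : Nat.Coprime a₁ a₂) (b d : ℤ)
    (hb : (a₁ : ℤ) ∣ b) (hd : (a₂ : ℤ) ∣ d) (hbd : d < b) (u v : ℕ) (huv : u < v)
    (hl : Link a₁ a₂ (a₁ * a₂ + d.natAbs) u v) :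
    ∃ n : ℕ, 1 ≤ n ∧ 0 < ((a₁ * a₂ : ℕ) : ℤ) * n + b ∧ 0 < ((a₁ * a₂ : ℕ) : ℤ) * n + d ∧
      (v : ℚ) / u = ((((a₁ * a₂ : ℕ) : ℤ) * n + b : ℤ) : ℚ) / ((((a₁ * a₂ : ℕ) : ℤ) * n + d : ℤ) : ℚ) := by
  obtain ⟨l1, l2, l3⟩ := hl
  obtain ⟨w, hw⟩ : ∃ w, v = u + w := ⟨v - u, by omega⟩
  have hw0 : 0 < w := by omega
  have e1 : v - u = w := by omega
  rw [e1] at l1 l2 l3
  obtain ⟨k, hk⟩ := l2
  obtain ⟨l, hl⟩ := l3
  -- `u = a₂ w k`, `v = a₁ w l`
  have hkl : a₂ * k + 1 = a₁ * l := by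
    have h3 : w * (a₂ * k + 1) = w * (a₁ * l) := by
      calc w * (a₂ * k + 1) = a₂ * w * k + w := by ring
        _ = v := by rw [← hk, hw]
        _ = w * (a₁ * l) := by rw [hl]; ring
    exact Nat.eq_of_mul_eq_mul_left hw0 h3
  set δ : ℤ := b - d with hδ
  have hδ0 : 0 < δ := by omega
  -- `m = δ a₂ k` is `≡ d` modulo `a₁ a₂`
  have hm1 : (a₂ : ℤ) ∣ δ * (a₂ * k) - d := dvd_sub ⟨δ * k, by ring⟩ hd
  have hm2 : (a₁ : ℤ) ∣ δ * (a₂ * k) - d := by
    have h3 : δ * (a₂ * k) - d = δ * (a₁ * l) - b := by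
      have : (a₂ : ℤ) * k + 1 = a₁ * l := by exact_mod_cast hkl
      have h4 : (a₂ : ℤ) * k = a₁ * l - 1 := by linarith
      rw [h4, hδ]
      ring
    rw [h3]
    exact dvd_sub ⟨δ * l, by ring⟩ hb
  have hm : ((a₁ * a₂ : ℕ) : ℤ) ∣ δ * (a₂ * k) - d := by
    push_cast
    exact IsCoprime.mul_dvd (Nat.isCoprime_iff_coprime.2 hco) hm2 hm1
  obtain ⟨n, hn⟩ := hm
  have hbig : ((a₁ * a₂ : ℕ) : ℤ) + |d| ≤ δ * (a₂ * k) := by
    have h3 : (a₁ * a₂ + d.natAbs) * w ≤ (a₂ * k) * w := by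
      calc (a₁ * a₂ + d.natAbs) * w ≤ u := l1
        _ = (a₂ * k) * w := by rw [hk]; ring
    have h4 : a₁ * a₂ + d.natAbs ≤ a₂ * k := Nat.le_of_mul_le_mul_right h3 hw0
    have h5 : ((a₁ * a₂ : ℕ) : ℤ) + |d| ≤ (a₂ * k : ℤ) := by
      rw [Int.abs_eq_natAbs]
      exact_mod_cast h4
    have h6 : (0 : ℤ) ≤ (a₂ * k : ℤ) := by positivity
    nlinarith
  have hA : (0 : ℤ) < ((a₁ * a₂ : ℕ) : ℤ) := by positivity
  have hn1 : 1 ≤ n := by
    by_contra hcon
    have h3 : n ≤ 0 := by omega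
    have h4 : ((a₁ * a₂ : ℕ) : ℤ) * n ≤ 0 := mul_nonpos_of_nonneg_of_nonpos hA.le h3
    have h5 := neg_abs_le d
    have h6 := le_abs_self d
    linarith
  obtain ⟨n', rfl⟩ : ∃ n' : ℕ, n = n' := ⟨n.toNat, by omega⟩
  have hmd : ((a₁ * a₂ : ℕ) : ℤ) * n' + d = δ * (a₂ * k) := by linarith
  have hmb : ((a₁ * a₂ : ℕ) : ℤ) * n' + b = δ * (a₂ * k + 1) := by
    have : b = d + δ := by omega
    rw [this]
    linarith
  have hpos : 0 < δ * ((a₂ : ℤ) * k) := by
    have := abs_nonneg d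
    linarith
  refine ⟨n', by exact_mod_cast hn1, ?_, ?_, ?_⟩
  · rw [hmb]
    have : δ * ((a₂ : ℤ) * k + 1) = δ * (a₂ * k) + δ := by ring
    rw [this]
    linarith
  · rw [hmd]
    exact hpos
  · rw [hmb, hmd]
    have h3 : (u : ℚ) = w * (a₂ * k) := by
      have : u = w * (a₂ * k) := by rw [hk]; ring
      exact_mod_cast this
    have h4 : (v : ℚ) = w * (a₂ * k + 1) := by
      have : v = w * (a₂ * k + 1) := by
        rw [hw, hk]; ring
      exact_mod_cast this
    have h5 : (w : ℚ) ≠ 0 := by exact_mod_cast hw0.ne'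
    have h6 : (δ : ℚ) ≠ 0 := by exact_mod_cast hδ0.ne'
    rw [h3, h4]
    push_cast
    rw [mul_div_mul_left _ _ h5, mul_div_mul_left _ _ h6]

lemma sufficient (a : ℕ) (ha : 0 < a) (b d : ℤ) (hbd : b ≠ d) (a₁ a₂ : ℕ) (haa : a₁ * a₂ = a)
    (hco : Nat.Coprime a₁ a₂) (hb : (a₁ : ℤ) ∣ b) (hd : (a₂ : ℤ) ∣ d) : IsMultRecurrent (S a b d) := by
  subst haa
  have h1 : 0 < a₁ := Nat.pos_of_mul_pos_right ha |> fun _ => by
    rcases Nat.eq_zero_or_pos a₁ with h | h
    · subst h; simp at ha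
    · exact h
  have h2 : 0 < a₂ := by
    rcases Nat.eq_zero_or_pos a₂ with h | h
    · subst h; simp at ha
    · exact h
  rcases lt_or_gt_of_ne hbd with h | h
  · refine isMultRecurrent_of_chain _ fun r => ?_
    obtain ⟨s, hs, hpos, hl⟩ := exists_chain a₂ a₁ (a₂ * a₁ + b.natAbs) h2 h1 (by positivity)
      hco.symm r
    refine ⟨s, hs, hpos, fun u hu v hv huv => Or.inr fun t ht => ?_⟩
    obtain ⟨n, hn, hn1, hn2, hn3⟩ := link_mem a₂ a₁ h2 h1 hco.symm d b hd hb h u v huv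
      (hl u hu v hv huv)
    rw [mul_comm a₂ a₁] at hn1 hn2 hn3
    refine ⟨n, hn, hn2, hn1, ?_⟩
    rw [ht, ← inv_div, hn3, inv_div]
  · refine isMultRecurrent_of_chain _ fun r => ?_
    obtain ⟨s, hs, hpos, hl⟩ := exists_chain a₁ a₂ (a₁ * a₂ + d.natAbs) h1 h2 (by positivity)
      hco r
    refine ⟨s, hs, hpos, fun u hu v hv huv => Or.inl fun t ht => ?_⟩
    obtain ⟨n, hn, hn1, hn2, hn3⟩ := link_mem a₁ a₂ h1 h2 hco b d hb hd h u v huv
      (hl u hu v hv huv)
    exact ⟨n, hn, hn1, hn2, by rw [ht, hn3]⟩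

/-! ### Necessity -/

lemma exists_map_eq_one {G : Type} [Group G] [Finite G] (f : QPos →* G) (R : Set QPos)
    (hR : IsMultRecurrent R) : ∃ r ∈ R, f r = 1 := by
  let _ : TopologicalSpace f.range := ⊥
  have _ : DiscreteTopology f.range := ⟨rfl⟩
  let _ : MetricSpace f.range := TopologicalSpace.metrizableSpaceMetric f.range
  obtain ⟨r, hr, x, hx1, hx2⟩ := hR f.range (fun r x => f.rangeRestrict r * x)
    (fun r => continuous_of_discreteTopology)
    (fun r s x => by rw [map_mul, mul_assoc])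
    (fun x => by
      have : Set.range (fun r => f.rangeRestrict r * x) = Set.univ := by
        rw [Set.range_eq_univ]
        intro y
        obtain ⟨r, hr⟩ := f.rangeRestrict_surjective (y * x⁻¹)
        exact ⟨r, by simp [hr]⟩
      rw [this]
      exact dense_univ)
    {1} (isOpen_discrete _) ⟨1, rfl⟩
  refine ⟨r, hr, ?_⟩
  have h1 : x = 1 := hx1
  have h2 : f.rangeRestrict r * x = 1 := hx2
  rw [h1, mul_one] at h2
  exact congrArg Subtype.val h2

/-- the homomorphism `ℚ_{>0} → G` that extends a completely multiplicative function -/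
noncomputable def ext {G : Type} [CommGroup G] (g : ℕ → G)
    (hg : ∀ m n, m ≠ 0 → n ≠ 0 → g (m * n) = g m * g n) : QPos →* G :=
  MonoidHom.mk' (fun r => g (r : ℚ).num.natAbs / g (r : ℚ).den) (by
    intro r s
    have h1 : (((r * s : QPos) : ℚ)).num.natAbs * ((r : ℚ).den * (s : ℚ).den) =
        (r : ℚ).num.natAbs * (s : ℚ).num.natAbs * ((r * s : QPos) : ℚ).den := by
      have h2 := Rat.mul_num_den' (r : ℚ) (s : ℚ)
      have h3 := congrArg Int.natAbs h2
      simp only [Int.natAbs_mul, Int.natAbs_natCast] at h3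
      rw [← mul_assoc]
      exact h3
    have hn : ∀ t : QPos, (t : ℚ).num.natAbs ≠ 0 := fun t => by
      have : 0 < (t : ℚ).num := Rat.num_pos.2 t.2
      omega
    have hd : ∀ t : QPos, (t : ℚ).den ≠ 0 := fun t => (t : ℚ).den_nz
    have h4 := congrArg g h1
    rw [hg _ _ (hn _) (mul_ne_zero (hd _) (hd _)), hg _ _ (hd _) (hd _),
      hg _ _ (mul_ne_zero (hn _) (hn _)) (hd _), hg _ _ (hn _) (hn _)] at h4
    rw [div_mul_div_comm, div_eq_div_iff_mul_eq_mul, h4])

lemma ext_eq {G : Type} [CommGroup G] (g : ℕ → G)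
    (hg : ∀ m n, m ≠ 0 → n ≠ 0 → g (m * n) = g m * g n) (r : QPos) (u v : ℕ) (hu : u ≠ 0)
    (hv : v ≠ 0) (h : (r : ℚ) = u / v) : ext g hg r = g u / g v := by
  have hn : (r : ℚ).num.natAbs ≠ 0 := by
    have : 0 < (r : ℚ).num := Rat.num_pos.2 r.2
    omega
  have hd : (r : ℚ).den ≠ 0 := (r : ℚ).den_nz
  have h1 : (r : ℚ).num.natAbs * v = u * (r : ℚ).den := by
    have h2 : ((r : ℚ).num : ℚ) / (r : ℚ).den = u / v := by rw [Rat.num_div_den, h]
    have hv' : (v : ℚ) ≠ 0 := by exact_mod_cast hv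
    have hd' : ((r : ℚ).den : ℚ) ≠ 0 := by exact_mod_cast hd
    rw [div_eq_div_iff hd' hv'] at h2
    have h3 : (r : ℚ).num * (v : ℤ) = u * ((r : ℚ).den : ℤ) := by exact_mod_cast h2
    have h4 := congrArg Int.natAbs h3
    simpa [Int.natAbs_mul] using h4
  have h4 := congrArg g h1
  rw [hg _ _ hn hv, hg _ _ hu hd] at h4
  show g (r : ℚ).num.natAbs / g (r : ℚ).den = g u / g v
  rw [div_eq_div_iff_mul_eq_mul, h4]

/-- valuation modulo `M` and unit part modulo `p ^ K` -/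
noncomputable def vu (p M K : ℕ) (hp : p.Prime) (n : ℕ) :
    Multiplicative (ZMod M) × (ZMod (p ^ K))ˣ :=
  (Multiplicative.ofAdd ((n.factorization p : ℕ) : ZMod M),
    if h : n ≠ 0 then ZMod.unitOfCoprime (ordCompl[p] n)
      ((Nat.coprime_ordCompl hp h).symm.pow_right K) else 1)

lemma vu_mul (p M K : ℕ) (hp : p.Prime) (m n : ℕ) (hm : m ≠ 0) (hn : n ≠ 0) :
    vu p M K hp (m * n) = vu p M K hp m * vu p M K hp n := by
  unfold vu
  refine Prod.ext ?_ ?_
  · simp only [Prod.fst_mul]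
    rw [← ofAdd_add, Nat.factorization_mul hm hn]
    simp
  · simp only [Prod.snd_mul]
    rw [dif_pos hm, dif_pos hn, dif_pos (mul_ne_zero hm hn)]
    ext
    simp only [ZMod.coe_unitOfCoprime, Units.val_mul]
    rw [Nat.ordCompl_mul]
    push_cast
    rfl

lemma necessary (a : ℕ) (b d : ℤ) (hbd : b ≠ d) (hR : IsMultRecurrent (S a b d))
    (p : ℕ) (hp : p.Prime) : ((p ^ a.factorization p : ℕ) : ℤ) ∣ b ∨ ((p ^ a.factorization p : ℕ) : ℤ) ∣ d := by
  by_contra hcon
  push Not at hcon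
  obtain ⟨hb, hd⟩ := hcon
  set k := a.factorization p with hk
  set K : ℕ := (b - d).natAbs with hK
  have hpk : NeZero (p ^ K) := ⟨(pow_pos hp.pos K).ne'⟩
  obtain ⟨r, ⟨n, hn, hn1, hn2, hr⟩, hr1⟩ := exists_map_eq_one (ext (vu p (k + 1) K hp)
    (vu_mul p (k + 1) K hp)) _ hR
  obtain ⟨u, hu⟩ : ∃ u : ℕ, (a : ℤ) * n + b = u := ⟨((a : ℤ) * n + b).toNat, by omega⟩
  obtain ⟨v, hv⟩ : ∃ v : ℕ, (a : ℤ) * n + d = v := ⟨((a : ℤ) * n + d).toNat, by omega⟩
  have hu0 : u ≠ 0 := by omega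
  have hv0 : v ≠ 0 := by omega
  rw [hu, hv] at hr
  rw [ext_eq _ _ r u v hu0 hv0 (by rw [hr, Int.cast_natCast, Int.cast_natCast]), div_eq_one] at hr1
  have hpa : ((p ^ k : ℕ) : ℤ) ∣ (a : ℤ) * n := by
    refine Dvd.dvd.mul_right ?_ _
    exact_mod_cast Nat.ordProj_dvd a p
  have hlt : ∀ (w : ℕ) (c : ℤ), w ≠ 0 → (a : ℤ) * n + c = w → ¬ ((p ^ k : ℕ) : ℤ) ∣ c →
      w.factorization p < k := by
    intro w c hw hwc hc
    by_contra hcon
    push Not at hcon
    have h1 : p ^ k ∣ w := (pow_dvd_pow p hcon).trans (Nat.ordProj_dvd w p)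
    have h2 : ((p ^ k : ℕ) : ℤ) ∣ (a : ℤ) * n + c := by
      rw [hwc]
      exact_mod_cast h1
    exact hc ((dvd_add_right hpa).1 h2)
  have hu1 := hlt u b hu0 hu hb
  have hv1 := hlt v d hv0 hv hd
  -- equal valuations
  have h1 : ((u.factorization p : ℕ) : ZMod (k + 1)) = ((v.factorization p : ℕ) : ZMod (k + 1)) :=
    Multiplicative.ofAdd.injective (congrArg Prod.fst hr1)
  have h2 : u.factorization p = v.factorization p := by
    rw [ZMod.natCast_eq_natCast_iff'] at h1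
    rwa [Nat.mod_eq_of_lt (by omega), Nat.mod_eq_of_lt (by omega)] at h1
  -- equal unit parts
  have h3 : ((ordCompl[p] u : ℕ) : ZMod (p ^ K)) = ((ordCompl[p] v : ℕ) : ZMod (p ^ K)) := by
    have h4 := congrArg Prod.snd hr1
    unfold vu at h4
    simp only at h4
    rw [dif_pos hu0, dif_pos hv0] at h4
    have h5 := congrArg Units.val h4
    simpa only [ZMod.coe_unitOfCoprime] using h5
  have h4 : ((p ^ K : ℕ) : ℤ) ∣ ((ordCompl[p] v : ℕ) : ℤ) - ((ordCompl[p] u : ℕ) : ℤ) := by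
    rw [ZMod.natCast_eq_natCast_iff] at h3
    exact (Nat.modEq_iff_dvd).1 h3
  have h5 : (b - d : ℤ) = -(((p ^ u.factorization p : ℕ) : ℤ) *
      (((ordCompl[p] v : ℕ) : ℤ) - ((ordCompl[p] u : ℕ) : ℤ))) := by
    have e1 : ((p ^ u.factorization p : ℕ) : ℤ) * ((ordCompl[p] u : ℕ) : ℤ) = u := by
      exact_mod_cast Nat.ordProj_mul_ordCompl_eq_self u p
    have e2 : ((p ^ u.factorization p : ℕ) : ℤ) * ((ordCompl[p] v : ℕ) : ℤ) = v := by
      rw [h2]
      exact_mod_cast Nat.ordProj_mul_ordCompl_eq_self v p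
    rw [mul_sub, e1, e2]
    linarith
  have h6 : ((p ^ K : ℕ) : ℤ) ∣ b - d := by
    rw [h5]
    exact (Dvd.dvd.mul_left h4 _).neg_right
  have h7 : p ^ K ∣ (b - d).natAbs := by
    have := Int.natAbs_dvd_natAbs.2 h6
    simpa using this
  have h8 : 0 < (b - d).natAbs := by omega
  have h9 := Nat.le_of_dvd h8 h7
  have h10 : K < p ^ K := Nat.lt_pow_self hp.one_lt
  omega

lemma split (b d : ℤ) (a : ℕ) : 0 < a →
    (∀ p : ℕ, p.Prime → ((p ^ a.factorization p : ℕ) : ℤ) ∣ b ∨ ((p ^ a.factorization p : ℕ) : ℤ) ∣ d) →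
    ∃ a₁ a₂ : ℕ, a₁ * a₂ = a ∧ Nat.Coprime a₁ a₂ ∧ (a₁ : ℤ) ∣ b ∧ (a₂ : ℤ) ∣ d := by
  induction a using Nat.recOnPosPrimePosCoprime with
  | prime_pow p n hp hn =>
    intro _ h
    have h1 := h p hp
    rw [hp.factorization_pow, Finsupp.single_eq_same] at h1
    rcases h1 with h1 | h1
    · exact ⟨p ^ n, 1, by simp, by simp, h1, by simp⟩
    · exact ⟨1, p ^ n, by simp, by simp, by simp, h1⟩
  | zero => intro h; exact absurd h (lt_irrefl _)
  | one => intro _ _; exact ⟨1, 1, by simp, by simp, by simp, by simp⟩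
  | coprime m n hm hn hmn ihm ihn =>
    intro _ h
    have hm0 : m ≠ 0 := by omega
    have hn0 : n ≠ 0 := by omega
    have hle : ∀ p, m.factorization p ≤ (m * n).factorization p ∧
        n.factorization p ≤ (m * n).factorization p := by
      intro p
      rw [Nat.factorization_mul hm0 hn0]
      simp
    obtain ⟨m₁, m₂, hm1, hm2, hm3, hm4⟩ := ihm (by omega) (fun p hp => by
      have hd : ((p ^ m.factorization p : ℕ) : ℤ) ∣ ((p ^ (m * n).factorization p : ℕ) : ℤ) := by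
        exact_mod_cast pow_dvd_pow p (hle p).1
      exact (h p hp).imp hd.trans hd.trans)
    obtain ⟨n₁, n₂, hn1, hn2, hn3, hn4⟩ := ihn (by omega) (fun p hp => by
      have hd : ((p ^ n.factorization p : ℕ) : ℤ) ∣ ((p ^ (m * n).factorization p : ℕ) : ℤ) := by
        exact_mod_cast pow_dvd_pow p (hle p).2
      exact (h p hp).imp hd.trans hd.trans)
    have c11 : Nat.Coprime m₁ n₁ := Nat.Coprime.coprime_dvd_left (Dvd.intro _ hm1)
      (Nat.Coprime.coprime_dvd_right (Dvd.intro _ hn1) hmn)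
    have c12 : Nat.Coprime m₁ n₂ := Nat.Coprime.coprime_dvd_left (Dvd.intro _ hm1)
      (Nat.Coprime.coprime_dvd_right (Dvd.intro_left _ hn1) hmn)
    have c21 : Nat.Coprime m₂ n₁ := Nat.Coprime.coprime_dvd_left (Dvd.intro_left _ hm1)
      (Nat.Coprime.coprime_dvd_right (Dvd.intro _ hn1) hmn)
    have c22 : Nat.Coprime m₂ n₂ := Nat.Coprime.coprime_dvd_left (Dvd.intro_left _ hm1)
      (Nat.Coprime.coprime_dvd_right (Dvd.intro_left _ hn1) hmn)
    refine ⟨m₁ * n₁, m₂ * n₂, ?_, ?_, ?_, ?_⟩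
    · rw [← hm1, ← hn1]; ring
    · exact Nat.Coprime.mul_left (Nat.Coprime.mul_right hm2 c12)
        (Nat.Coprime.mul_right c21.symm hn2)
    · push_cast
      exact IsCoprime.mul_dvd (Nat.isCoprime_iff_coprime.2 c11) hm3 hn3
    · push_cast
      exact IsCoprime.mul_dvd (Nat.isCoprime_iff_coprime.2 c22) hm4 hn4

/-- For `a ≥ 1` and integers `b ≠ d` the set `S_{a,b,d} = {(a n + b) / (a n + d) : n ≥ 1}` is a set
of topological multiplicative recurrence if and only if `a = a₁ a₂` for some coprime `a₁ ∣ b` and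
`a₂ ∣ d`. In particular it is not true that `S_{a,b,d}` is a set of topological multiplicative
recurrence only if `a ∣ b` or `a ∣ d`: the set `{(6 n + 3) / (6 n + 2) : n ≥ 1}` is one. -/
theorem result :
    (¬ ∀ (a : ℕ) (b d : ℤ), 0 < a → b ≠ d → (IsMultRecurrent (S a b d) ↔ (a : ℤ) ∣ b ∨ (a : ℤ) ∣ d)) ∧
    ∀ (a : ℕ) (b d : ℤ), 0 < a → b ≠ d → (IsMultRecurrent (S a b d) ↔
      ∃ a₁ a₂ : ℕ, a₁ * a₂ = a ∧ Nat.Coprime a₁ a₂ ∧ (a₁ : ℤ) ∣ b ∧ (a₂ : ℤ) ∣ d) := by
  have main : ∀ (a : ℕ) (b d : ℤ), 0 < a → b ≠ d → (IsMultRecurrent (S a b d) ↔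
      ∃ a₁ a₂ : ℕ, a₁ * a₂ = a ∧ Nat.Coprime a₁ a₂ ∧ (a₁ : ℤ) ∣ b ∧ (a₂ : ℤ) ∣ d) := by
    intro a b d ha hbd
    constructor
    · intro hR
      exact split b d a ha (necessary a b d hbd hR)
    · rintro ⟨a₁, a₂, haa, hco, hb, hd⟩
      exact sufficient a ha b d hbd a₁ a₂ haa hco hb hd
  refine ⟨fun h => ?_, main⟩
  have h1 := (h 6 3 2 (by norm_num) (by norm_num)).1
    ((main 6 3 2 (by norm_num) (by norm_num)).2 ⟨3, 2, by norm_num, by norm_num, by norm_num,
      by norm_num⟩)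
  norm_num at h1

end Pool.Agent.Results.MP_369d67_an.MoebiusRecurrence
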